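import Mathlib

namespace Pool.Agent.Results.MP_d96af6_lc.No

inductive Fm (k : ℕ) : Type
  | var : Fin k → Fm k
  | bot : Fm k
  | and : Fm k → Fm k → Fm k
  | or : Fm k → Fm k → Fm k
  | imp : Fm k → Fm k → Fm k

def Forces {W : Type} [PartialOrder W] {k : ℕ} (V : Fin k → Set W) : Fm k → W → Prop
  | .var i, x => x ∈ V i
  | .bot, _ => False
  | .and φ ψ, x => Forces V φ x ∧ Forces V ψ x
  | .or φ ψ, x => Forces V φ x ∨ Forces V ψ x
  | .imp φ ψ, x => ∀ y, x ≤ y → Forces V φ y → Forces V ψ y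

def Valid (W : Type) [PartialOrder W] {k : ℕ} (φ : Fm k) : Prop :=
  ∀ V : Fin k → Set W, (∀ i, IsUpperSet (V i)) → ∀ x, Forces V φ x

def Equi (W : Type) [PartialOrder W] {k : ℕ} (φ ψ : Fm k) : Prop :=
  Valid W (.and (.imp φ ψ) (.imp ψ φ))

def F : ℕ → (Fin 3 → Fm 3) × Fm 3
  | 0 => (fun i => .var i, .and (.var 0) (.var 1))
  | j + 1 =>
    (fun i => .or (.imp ((F j).1 (i + 2)) (F j).2) (.or ((F j).1 0) (.or ((F j).1 1) ((F j).1 2))),
      .or ((F j).1 0) (.or ((F j).1 1) ((F j).1 2)))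

def V (m M : ℕ) (i : Fin 3) : Set (Fin (m + 2) → ℕ) :=
  {a | M ≤ a 0 + a 1 ∨ (M = a 0 + a 1 + 1 ∧ a 0 % 3 = i)}

lemma up (m M : ℕ) (i : Fin 3) : IsUpperSet (V m M i) := by
  intro a b hab ha
  have h0 : a 0 ≤ b 0 := hab 0
  have h1 : a 1 ≤ b 1 := hab 1
  simp only [V, Set.mem_setOf_eq] at ha ⊢
  by_cases h : a 0 = b 0
  · omega
  · omega

lemma key (m M j : ℕ) :
    (∀ i a, Forces (V m M) ((F j).1 i) a ↔
      (M ≤ a 0 + a 1 + j ∨ (M = a 0 + a 1 + j + 1 ∧ a 0 % 3 = i))) ∧
    (∀ a, Forces (V m M) (F j).2 a ↔ M ≤ a 0 + a 1 + j) := by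
  induction j with
  | zero =>
    refine ⟨fun i a => by simp [F, Forces, V], fun a => ?_⟩
    simp only [F, Forces, V, Set.mem_setOf_eq, Fin.val_zero, Fin.val_one]
    omega
  | succ j ih =>
    obtain ⟨h1, h2⟩ := ih
    have hT : ∀ a, Forces (V m M) (.or ((F j).1 0) (.or ((F j).1 1) ((F j).1 2))) a ↔
        M ≤ a 0 + a 1 + (j + 1) := by
      intro a
      simp only [Forces, h1, Fin.val_zero, Fin.val_one, Fin.val_two]
      omega
    refine ⟨fun i a => ?_, fun a => hT a⟩
    have e : Forces (V m M) ((F (j + 1)).1 i) a ↔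
        (∀ b, a ≤ b → Forces (V m M) ((F j).1 (i + 2)) b → Forces (V m M) (F j).2 b) ∨
        Forces (V m M) (.or ((F j).1 0) (.or ((F j).1 1) ((F j).1 2))) a := Iff.rfl
    rw [e, hT]
    simp only [h1, h2]
    have hi : ((i + 2 : Fin 3) : ℕ) = (i + 2) % 3 := by
      rw [Fin.val_add]; rfl
    rw [hi]
    have hi3 := i.2
    constructor
    · rintro (h | h)
      · by_contra hc
        have w : ∀ x y, a 0 ≤ x → a 1 ≤ y → M = x + y + j + 1 → x % 3 ≠ (i + 2) % 3 := by
          intro x y hx hy hM hr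
          have := h (Function.update (Function.update a 0 x) 1 y) (by
            intro t
            by_cases t1 : t = 1
            · subst t1; simpa using hy
            · by_cases t0 : t = 0
              · subst t0; simpa using hx
              · simp [t0, t1]) (by simp; omega)
          simp at this
          omega
        have w0 := w (a 0) (M - j - 1 - a 0) le_rfl (by omega) (by omega)
        have w1 := w (a 0 + 1) (M - j - 1 - (a 0 + 1)) (by omega) (by omega) (by omega)
        by_cases hM : M = a 0 + a 1 + (j + 1) + 1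
        · omega
        · have w2 := w (a 0 + 2) (M - j - 1 - (a 0 + 2)) (by omega) (by omega) (by omega)
          omega
      · exact Or.inl h
    · rintro (h | h)
      · exact Or.inr h
      · left
        intro b hab hb
        have h0 : a 0 ≤ b 0 := hab 0
        have h1 : a 1 ≤ b 1 := hab 1
        omega

theorem result (n : ℕ) (hn : 2 ≤ n) :
    ∃ f : ℕ → Fm 3, ∀ s t, s ≠ t → ¬ Equi (Fin n → ℕ) (f s) (f t) := by
  obtain ⟨m, rfl⟩ : ∃ m, n = m + 2 := ⟨n - 2, by omega⟩
  refine ⟨fun j => (F j).2, fun s t hst h => ?_⟩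
  have a := (h (V m s) (up m s) 0).1 0 le_rfl
  have b := (h (V m t) (up m t) 0).2 0 le_rfl
  simp only [(key m s _).2, (key m t _).2] at a b
  simp at a b
  omega

end Pool.Agent.Results.MP_d96af6_lc.No
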